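import Mathlib

set_option autoImplicit false

namespace Pool.Agent.Results.MP_49f43a_nt.Solution

/-- The equation `y² z + y z² = 3 x³ + x² + x - 1` has an integer solution, namely
`(x, y, z) = (-783954692511, -838276125548, 1797526169071)`. -/
theorem result :
    ∃ x y z : ℤ, (x = -783954692511 ∧ y = -838276125548 ∧ z = 1797526169071) ∧
      y ^ 2 * z + y * z ^ 2 = 3 * x ^ 3 + x ^ 2 + x - 1 :=
  ⟨-783954692511, -838276125548, 1797526169071, ⟨rfl, rfl, rfl⟩, by norm_num⟩

end Pool.Agent.Results.MP_49f43a_nt.Solution
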